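import Mathlib
import Pool.Agent.H.MP_8ae77a_co.A

namespace Pool.Agent.H.MP_6c0529_co

open Finset Classical SimpleGraph Pool.Agent.H.MP_8ae77a_co

variable {V : Type} {G : SimpleGraph V}

theorem four [Finite V] {v a b c d : V} (h : (G.neighborSet v).ncard ≤ 3) (n : [a, b, c, d].Nodup)
    (ha : G.Adj v a) (hb : G.Adj v b) (hc : G.Adj v c) (hd : G.Adj v d) : False := by
  have := Set.ncard_le_ncard (s := ([a, b, c, d].toFinset : Finset V)) (t := G.neighborSet v)
    (fun x hx => by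
      simp only [mem_coe, List.mem_toFinset, List.mem_cons, List.not_mem_nil, or_false] at hx
      rcases hx with rfl | rfl | rfl | rfl <;> assumption) (Set.toFinite _)
  rw [Set.ncard_coe_finset, List.toFinset_card_of_nodup n] at this
  exact absurd (this.trans h) (by simp)

theorem sepcat (h : G.IsTree) {n m : ℕ} {l : Fin n → V} {s : Fin m → V} {p : Fin n → Fin m}
    (h1 : s.Injective) (h2 : ∀ i j : Fin m, i.1 + 1 = j.1 → G.Adj (s i) (s j))
    (h3 : ∀ a, G.Adj (s (p a)) (l a)) (h4 : ∀ a j, l a ≠ s j) {A B : Finset (Fin n)}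
    (hAB : ∀ a ∈ A, ∀ b ∈ B, p a < p b) : Sep G l A B := by
  have z (A) : Sep G l A ∅ := ⟨∅, Set.empty_subset _, fun _ => True, fun x y => by
    simpa using h.connected x y, by simp, by simp⟩
  rcases A.eq_empty_or_nonempty with rfl | hA
  · exact (z B).symm
  rcases B.eq_empty_or_nonempty with rfl | ⟨b, hb⟩
  · exact z A
  obtain ⟨a, ha, mx⟩ := exists_max_image A p hA
  obtain ⟨y, hy⟩ : ∃ y : Fin m, (p a).1 + 1 = y := ⟨⟨p a + 1, by have := hAB a ha b hb; omega⟩, rfl⟩
  have k1 (d) : ∀ k : Fin m, k.1 + d = p a → s k ∈ sd G (s (p a)) (s y) := by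
    induction d with
    | zero => exact fun k e => (Fin.ext e : k = p a) ▸ self _ _
    | succ d ih =>
      refine fun k e => ext' (ih ⟨k + 1, by omega⟩ (by simp only; omega)) (h2 _ _ rfl).symm ?_
      simp only [ne_eq, Sym2.eq_iff, h1.eq_iff, Fin.ext_iff]
      omega
  have k2 (d) : ∀ k : Fin m, k.1 = y + d → s k ∈ sd G (s y) (s (p a)) := by
    induction d with
    | zero => exact fun k e => (Fin.ext e : k = y) ▸ self _ _
    | succ d ih =>
      refine fun k e => ext' (ih ⟨y + d, by omega⟩ rfl) (h2 _ _ e.symm) ?_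
      simp only [ne_eq, Sym2.eq_iff, h1.eq_iff, Fin.ext_iff]
      omega
  refine (cut h.connected l A B (h2 _ _ hy)).mono (fun x hx => mem_filter.2 ⟨hx, ?_⟩)
    fun x hx => mem_filter.2 ⟨hx, fun q => br h.isAcyclic (h2 _ _ hy) ?_⟩
  · exact ext' (k1 (p a - p x) _ (by have := mx x hx; omega)) (h3 x) (by simp [h4])
  · have : l x ∈ sd G (s y) (s (p a)) :=
      ext' (k2 (p x - y) _ (by have := hAB a ha x hx; omega)) (h3 x) (by simp [h4])
    rw [sd, Sym2.eq_swap] at this
    exact Reachable.trans q (Reachable.symm this)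

def rk : Fin 7 → ℕ := ![0, 0, 1, 2, 3, 4, 4]

theorem cat [Finite V] (h : G.IsTree) (hd : ∀ v, (G.neighborSet v).ncard ≤ 3) {l : Fin 7 → V}
    (hl : l.Injective) (lf : ∀ i, (G.neighborSet (l i)).ncard = 1) {m : ℕ}
    (e : pathGraph m ≃g G.induce {v | (G.neighborSet v).ncard ≠ 1}) :
    ∃ σ : Equiv.Perm (Fin 7), ∀ A B : Finset (Fin 7),
      (∀ a ∈ A, ∀ b ∈ B, rk (σ a) < rk (σ b)) → Sep G l A B := by
  have hp (a) : ∃ j, G.Adj (e j).1 (l a) := by
    obtain ⟨w, hw⟩ := Set.ncard_eq_one.1 (lf a)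
    have a1 : G.Adj (l a) w := (Set.ext_iff.1 hw w).2 rfl
    by_cases q : (G.neighborSet w).ncard = 1
    · obtain ⟨z, hz⟩ := Set.ncard_eq_one.1 q
      have k (v) : v = l a ∨ v = w := by
        refine ind (P := fun v => v = l a ∨ v = w) (h.connected (l a) v) (.inl rfl) ?_
        rintro x y (rfl | rfl) r
        · exact .inr ((Set.ext_iff.1 hw y).1 r)
        · exact .inl (Eq.trans ((Set.ext_iff.1 hz y).1 r) (Eq.symm ((Set.ext_iff.1 hz _).1 a1.symm)))
      have := hl.ne (by decide : (0 : Fin 7) ≠ 1)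
      have := hl.ne (by decide : (0 : Fin 7) ≠ 2)
      have := hl.ne (by decide : (1 : Fin 7) ≠ 2)
      have := k (l 0)
      have := k (l 1)
      have := k (l 2)
      grind
    · exact ⟨e.symm ⟨w, q⟩, by simpa using a1.symm⟩
  choose p hp using hp
  have h1 : Function.Injective fun j => (e j).1 := Subtype.val_injective.comp e.injective
  have h2 (i j : Fin m) (q : i.1 + 1 = j.1) : G.Adj (e i).1 (e j).1 :=
    e.map_rel_iff.2 (pathGraph_adj.2 (.inl q))
  have h4 (a j) : l a ≠ (e j).1 := fun q => (e j).2 (q ▸ lf a)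
  have mo := Tuple.monotone_sort p
  generalize Tuple.sort p = σ at mo
  have key (a b : Fin 7) (r : rk a < rk b) : p (σ a) < p (σ b) := by
    have r1 : a < b ∧ 2 ≤ b ∧ a ≤ 4 := by revert a b; decide
    refine (mo r1.1.le).lt_of_ne fun q => ?_
    change p (σ a) = p (σ b) at q
    have t (x y z : Fin 7) (k : Fin m) (n : [x, y, z].Nodup) (j) (hx : p (σ x) = j)
        (hy : p (σ y) = j) (hz : p (σ z) = j) (r : G.Adj (e j).1 (e k).1) : False :=
      four (hd _) (by simpa [hl.eq_iff, h4] using n) (hx ▸ hp _) (hy ▸ hp _) (hz ▸ hp _) r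
    have m0 (x y : Fin 7) (r : x ≤ y) : (p (σ x)).1 ≤ (p (σ y)).1 := mo r
    have q' := congrArg Fin.val q
    have := m0 0 1 (by decide)
    have := m0 1 2 (by decide)
    have := m0 2 b r1.2.1
    have := m0 a 4 r1.2.2
    have := m0 4 5 (by decide)
    have := m0 5 6 (by decide)
    have := (p (σ 6)).2
    by_cases u : (p (σ a)).1 + 1 < m
    · by_cases w : (p (σ a)).1 = 0
      · exact t 0 1 2 ⟨_, u⟩ (by decide) (p (σ a)) (by omega) (by omega) (by omega) (h2 _ _ rfl)
      · refine four (hd _) ?_ (hp (σ a)) (q ▸ hp (σ b)) (h2 _ ⟨_, u⟩ rfl)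
          (h2 ⟨p (σ a) - 1, by omega⟩ _ (by simp only; omega)).symm
        simp [hl.eq_iff, h4, r1.1.ne, Subtype.coe_inj]
        omega
    · by_cases w : (p (σ a)).1 = 0
      · have z (x) : p (σ x) = p (σ a) := by omega
        exact four (hd _) (by simp [hl.eq_iff]) (z 0 ▸ hp _) (z 1 ▸ hp (σ 1)) (z 2 ▸ hp (σ 2))
          (z 3 ▸ hp (σ 3))
      · exact t 4 5 6 ⟨p (σ a) - 1, by omega⟩ (by decide) (p (σ a)) (by omega) (by omega) (by omega)
          (h2 _ _ (by simp only; omega)).symm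
  exact ⟨σ.symm, fun A B r => sepcat h h1 h2 hp h4 fun a ha b hb => by
    simpa using key _ _ (r a ha b hb)⟩

theorem sepreal {n : ℕ} {l : Fin n → V} (hl : l.Injective)
    (lf : ∀ i, (G.neighborSet (l i)).ncard = 1) {C D : Finset (Fin n)} (h : Sep G l C D ∨ Sep G l D C) :
    ∃ F ⊆ G.edgeSet, ∀ i j, Setoid.ker (g (C ∪ D)ᶜ fun i => decide (i ∈ C)) i j ↔
      (G.deleteEdges F).Reachable (l i) (l j) := by
  obtain ⟨F, q0, p, q1, q2, q3⟩ := h.elim id Sep.symm
  have e (a) (ha : a ∉ (C ∪ D)ᶜ) : p (l a) ↔ a ∈ C :=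
    ⟨fun x => (mem_union.1 (not_not.1 (mt mem_compl.2 ha))).resolve_right (q3 a · x), q2 a⟩
  exact real hl lf _ _ q0 fun a ha b hb => by rw [q1, e a ha, e b hb, decide_eq_decide]

theorem thru {φ : V → Bool} {u : V} (h : ∀ x y, G.Adj x y → φ x ≠ φ y → x = u ∨ y = u)
    {F : Set (Sym2 V)} {a b : V} (r : (G.deleteEdges F).Reachable a b) (n : φ a ≠ φ b) :
    (G.deleteEdges F).Reachable a u := by
  refine (ind (P := fun y => (G.deleteEdges F).Reachable a y ∧
    (φ a = φ y ∨ (G.deleteEdges F).Reachable a u)) r ⟨.refl _, .inl rfl⟩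
      fun x y ⟨p, q⟩ e => ⟨p.trans e.reachable, ?_⟩).2.resolve_left n
  refine q.elim (fun q => or_iff_not_imp_left.2 fun z => ?_) .inr
  rcases h x y (deleteEdges_adj.1 e).1 (q ▸ z) with rfl | rfl
  exacts [p, p.trans e.reachable]

end Pool.Agent.H.MP_6c0529_co
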