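import Mathlib
import Pool.Agent.H.MP_6c0529_co.A

namespace Pool.Agent.H.MP_6c0529_co

open Finset SimpleGraph Pool.Agent.H.MP_8ae77a_co

def T : List (List ℕ × List ℕ) := [
  ([], []), ([0, 1], []), ([0, 2], []), ([1, 2], []), ([0, 1, 2], []), ([0, 3], []), ([1, 3], []),
  ([0, 1, 3], []), ([2, 3], []), ([0, 2, 3], []), ([1, 2, 3], []), ([0, 1, 2, 3], []),
  ([0, 4], []), ([1, 4], []), ([0, 1, 4], []), ([2, 4], []), ([0, 2, 4], []), ([1, 2, 4], []),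
  ([0, 1, 2, 4], []), ([3, 4], []), ([0, 3, 4], []), ([1, 3, 4], []), ([0, 1, 3, 4], []),
  ([2, 3, 4], []), ([0, 2, 3, 4], []), ([1, 2, 3, 4], []), ([0, 1, 2, 3, 4], []), ([0, 5], []),
  ([1, 5], []), ([0, 1, 5], []), ([2, 5], []), ([0, 2, 5], []), ([1, 2, 5], []),
  ([0, 1, 2, 5], []), ([3, 5], []), ([0, 3, 5], []), ([1, 3, 5], []), ([0, 1, 3, 5], []),
  ([2, 3, 5], []), ([0, 2, 3, 5], []), ([1, 2, 3, 5], []), ([0, 1, 2, 3, 5], []), ([4, 5], []),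
  ([0, 4, 5], []), ([1, 4, 5], []), ([0, 1, 4, 5], []), ([2, 4, 5], []), ([0, 2, 4, 5], []),
  ([1, 2, 4, 5], []), ([0, 1, 2, 4, 5], []), ([3, 4, 5], []), ([0, 3, 4, 5], []),
  ([1, 3, 4, 5], []), ([0, 1, 3, 4, 5], []), ([2, 3, 4, 5], []), ([0, 2, 3, 4, 5], []),
  ([1, 2, 3, 4, 5], []), ([0, 1, 2, 3, 4, 5], []), ([0, 6], []), ([1, 6], []), ([0, 1, 6], []),
  ([2, 6], []), ([0, 2, 6], []), ([1, 2, 6], []), ([0, 1, 2, 6], []), ([3, 6], []),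
  ([0, 3, 6], []), ([1, 3, 6], []), ([0, 1, 3, 6], []), ([2, 3, 6], []), ([0, 2, 3, 6], []),
  ([1, 2, 3, 6], []), ([0, 1, 2, 3, 6], []), ([4, 6], []), ([0, 4, 6], []), ([1, 4, 6], []),
  ([0, 1, 4, 6], []), ([2, 4, 6], []), ([0, 2, 4, 6], []), ([1, 2, 4, 6], []),
  ([0, 1, 2, 4, 6], []), ([3, 4, 6], []), ([0, 3, 4, 6], []), ([1, 3, 4, 6], []),
  ([0, 1, 3, 4, 6], []), ([2, 3, 4, 6], []), ([0, 2, 3, 4, 6], []), ([1, 2, 3, 4, 6], []),
  ([0, 1, 2, 3, 4, 6], []), ([5, 6], []), ([0, 5, 6], []), ([1, 5, 6], []), ([0, 1, 5, 6], []),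
  ([2, 5, 6], []), ([0, 2, 5, 6], []), ([1, 2, 5, 6], []), ([0, 1, 2, 5, 6], []), ([3, 5, 6], []),
  ([0, 3, 5, 6], []), ([1, 3, 5, 6], []), ([0, 1, 3, 5, 6], []), ([2, 3, 5, 6], []),
  ([0, 2, 3, 5, 6], []), ([1, 2, 3, 5, 6], []), ([0, 1, 2, 3, 5, 6], []), ([4, 5, 6], []),
  ([0, 4, 5, 6], []), ([1, 4, 5, 6], []), ([0, 1, 4, 5, 6], []), ([2, 4, 5, 6], []),
  ([0, 2, 4, 5, 6], []), ([1, 2, 4, 5, 6], []), ([0, 1, 2, 4, 5, 6], []), ([3, 4, 5, 6], []),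
  ([0, 3, 4, 5, 6], []), ([1, 3, 4, 5, 6], []), ([0, 1, 3, 4, 5, 6], []), ([2, 3, 4, 5, 6], []),
  ([0, 2, 3, 4, 5, 6], []), ([1, 2, 3, 4, 5, 6], []), ([0, 1, 2, 3, 4, 5, 6], [])]

def C : List (List ℕ × List ℕ) := [
  ([0, 1], [2, 3]), ([0, 1], [2, 4]), ([0, 1], [3, 4]), ([0, 1], [2, 5]), ([0, 1], [3, 5]),
  ([0, 1], [4, 5]), ([0, 1], [2, 6]), ([0, 1], [3, 6]), ([0, 1], [4, 6]), ([0, 1], [5, 6]),
  ([0, 2], [3, 4]), ([0, 2], [3, 5]), ([0, 2], [4, 5]), ([0, 2], [3, 6]), ([0, 2], [4, 6]),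
  ([0, 2], [5, 6]), ([1, 2], [3, 4]), ([1, 2], [3, 5]), ([1, 2], [4, 5]), ([1, 2], [3, 6]),
  ([1, 2], [4, 6]), ([1, 2], [5, 6]), ([0, 3], [4, 5]), ([0, 3], [4, 6]), ([0, 3], [5, 6]),
  ([1, 3], [4, 5]), ([1, 3], [4, 6]), ([1, 3], [5, 6]), ([2, 3], [4, 5]), ([2, 3], [4, 6]),
  ([2, 3], [5, 6]), ([0, 4], [5, 6]), ([1, 4], [5, 6]), ([2, 4], [5, 6]), ([3, 4], [5, 6]),
  ([0, 1], [2, 3, 4]), ([0, 1], [2, 3, 5]), ([0, 1], [2, 4, 5]), ([0, 1], [3, 4, 5]),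
  ([0, 1], [2, 3, 6]), ([0, 1], [2, 4, 6]), ([0, 1], [3, 4, 6]), ([0, 1], [2, 5, 6]),
  ([0, 1], [3, 5, 6]), ([0, 1], [4, 5, 6]), ([0, 2], [3, 4, 5]), ([0, 2], [3, 4, 6]),
  ([0, 2], [3, 5, 6]), ([0, 2], [4, 5, 6]), ([1, 2], [3, 4, 5]), ([1, 2], [3, 4, 6]),
  ([1, 2], [3, 5, 6]), ([1, 2], [4, 5, 6]), ([0, 1, 2], [3, 4]), ([0, 1, 2], [3, 5]),
  ([0, 1, 2], [4, 5]), ([0, 1, 2], [3, 6]), ([0, 1, 2], [4, 6]), ([0, 1, 2], [5, 6]),
  ([0, 3], [4, 5, 6]), ([1, 3], [4, 5, 6]), ([0, 1, 3], [4, 5]), ([0, 1, 3], [4, 6]),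
  ([0, 1, 3], [5, 6]), ([2, 3], [4, 5, 6]), ([0, 2, 3], [4, 5]), ([0, 2, 3], [4, 6]),
  ([0, 2, 3], [5, 6]), ([1, 2, 3], [4, 5]), ([1, 2, 3], [4, 6])]

def sp (r A B : List ℕ) : Bool := A.all fun a => B.all fun b => r.getD a 0 < r.getD b 0

def ok (r : List ℕ) (x : List ℕ × List ℕ) : Bool := sp r x.1 x.2 || sp r x.2 x.1

def gen : ℕ → List ℕ → List (List ℕ)
  | 0, _ => [[]]
  | n + 1, m => m.dedup.flatMap fun a => (gen n (m.erase a)).map (a :: ·)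

theorem mem_gen (l m : List ℕ) (h : l.Perm m) : l ∈ gen l.length m := by
  induction l generalizing m with
  | nil => simp [gen]
  | cons a l ih =>
    obtain ⟨p, q⟩ := List.cons_perm_iff_perm_erase.1 h
    exact List.mem_flatMap.2 ⟨a, List.mem_dedup.2 p, List.mem_map_of_mem (ih _ q)⟩

theorem gd (F : Fin 7 → ℕ) (i : Fin 7) : (List.ofFn F).getD i 0 = F i := by
  fin_cases i <;> rfl

theorem c1 : (gen 7 (List.ofFn rk)).all
    (fun r => ((C.filter (ok r)).take 5).length == 5) = true := by decide +kernel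

theorem c2 : ∀ x ∈ C, sp (List.ofFn rk) x.1 x.2 = true := by decide +kernel

theorem c3 : ∀ x ∈ T, x.2 = [] := by decide +kernel

def cd (R : Fin 7 → Fin 7 → Bool) : ℕ := (List.finRange 7).foldl (fun s i =>
  (List.finRange 7).foldl (fun s j => 2 * s + (R i j).toNat) s) 0

theorem c4 : ((T ++ C).map fun x => cd fun i j => decide (i = j ∨ (i.1 ∈ x.1 ∨ i.1 ∈ x.2) ∧
    (j.1 ∈ x.1 ∨ j.1 ∈ x.2) ∧ (i.1 ∈ x.1 ↔ j.1 ∈ x.1))).Nodup := by decide +kernel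

theorem lower (σ τ : Equiv.Perm (Fin 7)) (S : Set (Setoid (Fin 7)))
    (h : ∀ A B : Finset (Fin 7), (∀ a ∈ A, ∀ b ∈ B, rk (σ a) < rk (σ b)) →
      (∀ a ∈ A, ∀ b ∈ B, rk (τ a) < rk (τ b)) ∨ (∀ a ∈ B, ∀ b ∈ A, rk (τ a) < rk (τ b)) →
      Setoid.ker (g (A ∪ B)ᶜ fun i => decide (i ∈ A)) ∈ S) : 126 ≤ S.ncard := by
  classical
  have : Finite (Setoid (Fin 7)) := .of_injective (fun s => s.r) fun _ _ h => Setoid.ext fun _ _ => by
    simpa using iff_of_eq (congrFun₂ h _ _)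
  let f (A : List ℕ) : Finset (Fin 7) := {i | (σ i).1 ∈ A}
  let P (x : List ℕ × List ℕ) := Setoid.ker (g (f x.1 ∪ f x.2)ᶜ fun i => decide (i ∈ f x.1))
  let r := List.ofFn (rk ∘ (σ.symm.trans τ))
  have k (F : Fin 7 → ℕ) (A B) (q : sp (List.ofFn F) A B = true) :
      ∀ a ∈ f A, ∀ b ∈ f B, F (σ a) < F (σ b) := fun a ha b hb => by
    simpa only [gd, decide_eq_true_eq] using
      List.all_eq_true.1 (List.all_eq_true.1 q _ (mem_filter.1 ha).2) _ (mem_filter.1 hb).2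
  have h1 : ((C.filter (ok r)).take 5).length = 5 := beq_iff_eq.1 (List.all_eq_true.1 c1 r
    (by simpa only [List.length_ofFn] using mem_gen _ _ (Equiv.Perm.ofFn_comp_perm (σ.symm.trans τ) rk)))
  have h2 : ((T ++ C).map P).Nodup := by
    refine .of_map (fun Q => cd fun i j => decide (Q (σ.symm i) (σ.symm j))) ?_
    rw [List.map_map]
    convert c4 using 2
    ext x
    simp only [Function.comp, P, Setoid.ker_def, geq]
    congr
    ext i j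
    simp [f]
  have h3 := h2.sublist (((List.take_sublist 5 (C.filter (ok r))).trans
    List.filter_sublist).append_left T |>.map P)
  have h4 := List.toFinset_card_of_nodup h3
  rw [List.length_map, List.length_append, h1] at h4
  refine le_trans (by rw [Set.ncard_coe_finset, h4]; decide +kernel) (Set.ncard_le_ncard
    (s := ((T ++ (C.filter (ok r)).take 5).map P).toFinset) (fun Q hQ => ?_) (Set.toFinite _))
  obtain ⟨x, hx, rfl⟩ := List.mem_map.1 (List.mem_toFinset.1 hQ)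
  rcases List.mem_append.1 hx with hx | hx
  · exact h _ _ (by simp [f, c3 x hx]) (.inl (by simp [f, c3 x hx]))
  obtain ⟨p, q⟩ := List.mem_filter.1 (List.mem_of_mem_take hx)
  exact h _ _ (k _ _ _ (c2 x p)) ((Bool.or_eq_true_iff.1 q).imp
    (fun q => by simpa using k _ _ _ q) fun q => by simpa using k _ _ _ q)

def cr (f S T : List ℕ) : Bool := S.all fun a => S.all fun c =>
  !(T.any fun b => f.getD a 0 == f.getD b 0) || !(T.any fun b => f.getD c 0 == f.getD b 0) ||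
    f.getD a 0 == f.getD c 0

def Sp : List (List ℕ × List ℕ) := [([0, 1], [2, 3, 4, 5, 6]), ([0, 1, 2], [3, 4, 5, 6]),
  ([0, 1, 2, 3], [4, 5, 6]), ([0, 1, 2, 3, 4], [5, 6]), ([2, 5], [0, 1, 3, 4, 6]),
  ([1, 4], [0, 2, 3, 5, 6]), ([1, 2, 4, 5], [0, 3, 6]), ([1, 2, 3, 4, 5], [0, 6])]

def W : List (List ℕ) := (((List.range 7).map fun i => List.range (i + 1)).sections).filter fun f =>
  (f.all fun a => f.getD a 0 == a) && Sp.all fun x => cr f x.1 x.2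

theorem c5 : W.length = 125 := by decide +kernel

theorem upper (S : Set (Setoid (Fin 7))) (h : ∀ P ∈ S, ∀ x ∈ Sp, ∀ a b c d : Fin 7,
    a.1 ∈ x.1 → b.1 ∈ x.2 → c.1 ∈ x.1 → d.1 ∈ x.2 → P a b → P c d → P a c) : S.ncard ≤ 125 := by
  classical
  refine (Set.ncard_le_ncard (t := (W.map fun f => Setoid.ker fun i : Fin 7 => f.getD i 0).toFinset)
    (fun P hP => ?_) (Finset.finite_toSet _)).trans (by
      rw [Set.ncard_coe_finset, ← c5, ← List.length_map]; exact List.toFinset_card_le _)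
  have (i : Fin 7) : ∃ x, P i x ∧ ∀ j, P i j → x ≤ j :=
    Set.exists_min_image {j | P i j} id (Set.toFinite _) ⟨i, P.refl' i⟩
  choose f f1 f2 using this
  have e (i j) : (f i).1 = (f j).1 ↔ P i j := Fin.val_inj.trans
    ⟨fun q => P.trans' (f1 i) (q ▸ P.symm' (f1 j)), fun q =>
      (f2 i _ (P.trans' q (f1 j))).antisymm (f2 j _ (P.trans' (P.symm' q) (f1 i)))⟩
  refine List.mem_toFinset.2 (List.mem_map.2 ⟨List.ofFn fun i => (f i).1,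
    List.mem_filter.2 ⟨List.mem_sections.2 ?_, Bool.and_eq_true_iff.2 ⟨?_, ?_⟩⟩,
      Setoid.ext fun i j => by rw [Setoid.ker_def, gd, gd, e]⟩)
  · have q (i : Fin 7) : (f i).1 ∈ List.range (i + 1) :=
      List.mem_range.2 (Nat.lt_succ_of_le (f2 i i (P.refl' i)))
    exact .cons (q 0) (.cons (q 1) (.cons (q 2) (.cons (q 3) (.cons (q 4) (.cons (q 5)
      (.cons (q 6) .nil))))))
  · refine List.all_eq_true.2 fun a ha => ?_
    obtain ⟨i, rfl⟩ := List.mem_ofFn.1 ha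
    exact beq_iff_eq.2 ((gd _ _).trans ((e _ _).2 (P.symm' (f1 i))))
  have b : ∀ x ∈ Sp, (∀ a ∈ x.1, a < 7) ∧ ∀ a ∈ x.2, a < 7 := by decide
  refine List.all_eq_true.2 fun x hx => List.all_eq_true.2 fun a ha => List.all_eq_true.2 fun c hc => ?_
  by_contra z
  simp only [Bool.or_eq_true, Bool.not_eq_true', beq_iff_eq, not_or, Bool.not_eq_false,
    List.any_eq_true] at z
  obtain ⟨⟨⟨u, hu, p⟩, v, hv, q⟩, z⟩ := z
  lift a to Fin 7 using (b x hx).1 a ha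
  lift c to Fin 7 using (b x hx).1 c hc
  lift u to Fin 7 using (b x hx).2 u hu
  lift v to Fin 7 using (b x hx).2 v hv
  rw [gd, gd, e] at p q z
  exact z (h P hP x hx _ _ _ _ ha hu hc hv p q)

end Pool.Agent.H.MP_6c0529_co
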